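import Pool.Agent.H.MP_864522_al.Defs

set_option autoImplicit false

namespace Pool.Agent.H.MP_864522_al

open Set Topology Equiv
open Cardinal hiding univ

abbrev S := Perm ℕ

theorem ind : IsInducing (fun g : S => (g : ℕ → ℕ)) := ⟨rfl⟩

theorem cev (n : ℕ) : Continuous fun g : S => g n := (continuous_apply n).comp ind.continuous

instance : T2Space S := (IsEmbedding.mk ind DFunLike.coe_injective).t2Space

instance : IsTopologicalGroup S where
  continuous_mul := ind.continuous_iff.2 (continuous_pi fun n => by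
    have : Continuous fun p : S × ℕ => p.1 p.2 := continuous_prod_of_discrete_right.2 cev
    exact this.comp (continuous_fst.prodMk ((cev n).comp continuous_snd)))
  continuous_inv := ind.continuous_iff.2 (continuous_pi fun n => continuous_discrete_rng.2 fun m => by
    have : (fun g : S => g⁻¹ n) ⁻¹' {m} = (fun g : S => g m) ⁻¹' {n} := by
      ext g; exact Perm.inv_eq_iff_eq.trans eq_comm
    exact this ▸ (isOpen_discrete _).preimage (cev m))

theorem cov_of_CH (h : (𝔠 : Cardinal.{0}) = ℵ₁) : CovEqC := by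
  intro D hD h1 h2
  have hc : D.Countable := (countable_iff_lt_aleph_one _).2 (hD.trans_eq h)
  let e : S → (ℕ → ℕ) × (ℕ → ℕ) := fun g => (g, ⇑g⁻¹)
  have he : IsClosedEmbedding e := by
    refine ⟨⟨IsInducing.of_comp (ind.continuous.prodMk (ind.continuous.comp continuous_inv))
      continuous_fst ind, fun a b h => DFunLike.coe_injective (congrArg Prod.fst h)⟩, ?_⟩
    have : range e = ⋂ n, ({p | p.1 (p.2 n) = n} ∩ {p | p.2 (p.1 n) = n}) := by
      ext ⟨f, g⟩
      simp only [mem_iInter, mem_inter_iff, mem_setOf_eq]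
      constructor
      · rintro ⟨x, hx⟩ n
        obtain ⟨rfl, rfl⟩ := Prod.mk.inj hx
        simp
      · intro h
        exact ⟨⟨f, g, fun n => (h n).2, fun n => (h n).1⟩, rfl⟩
    have ev : Continuous fun p : (ℕ → ℕ) × ℕ => p.1 p.2 :=
      continuous_prod_of_discrete_right.2 continuous_apply
    rw [this]
    refine isClosed_iInter fun n => (isClosed_eq ?_ continuous_const).inter
      (isClosed_eq ?_ continuous_const)
    · exact ev.comp (continuous_fst.prodMk ((continuous_apply n).comp continuous_snd))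
    · exact ev.comp (continuous_snd.prodMk ((continuous_apply n).comp continuous_fst))
  haveI := he.polishSpace
  have : IsMeagre (univ : Set S) := h2 ▸ isMeagre_iff_countable_union_isNowhereDense.2
    ⟨D, h1, hc, subset_rfl⟩
  exact not_isMeagre_of_isOpen isOpen_univ univ_nonempty this

/-- finitary permutations -/
def Fin' : Set S := {g | {n | g n ≠ n}.Finite}

theorem finCount : Fin'.Countable := by
  have : Fin' ⊆ ⋃ F : Finset ℕ, {g : S | ∀ n ∉ F, g n = n} := fun g hg =>
    mem_iUnion.2 ⟨hg.toFinset, fun n hn => by simpa using hn⟩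
  refine (countable_iUnion fun F => ?_).mono this
  refine countable_of_injective_of_countable_image (f := fun (g : S) (n : F) => g n) ?_
    (to_countable _)
  intro g hg g' hg' e
  ext n
  by_cases c : n ∈ F
  · exact congrFun e ⟨n, c⟩
  · rw [hg n c, hg' n c]

theorem finAgree (g : S) (F : Finset ℕ) : ∃ x ∈ Fin', ∀ n ∈ F, x n = g n := by
  induction F using Finset.induction_on with
  | empty => exact ⟨1, by simp [Fin'], by simp⟩
  | insert a F ha ih =>
    obtain ⟨x, h1, h2⟩ := ih
    refine ⟨swap (x a) (g a) * x, ((h1.insert a).insert (x⁻¹ (g a))).subset fun n hn => ?_,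
      fun n hn => ?_⟩
    · by_contra c
      simp only [mem_insert_iff, mem_setOf_eq, not_or, not_not] at c
      apply hn
      rw [Perm.mul_apply, swap_apply_of_ne_of_ne (fun e => c.2.1 (x.injective e))
        (fun e => c.1 (by rw [← e]; simp)), c.2.2]
    · rcases Finset.mem_insert.1 hn with rfl | hn
      · simp
      · have : n ≠ a := fun e => ha (e ▸ hn)
        rw [Perm.mul_apply, swap_apply_of_ne_of_ne (fun e => this (x.injective e))
          (fun e => this (g.injective ((h2 n hn).symm.trans e))), h2 n hn]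

theorem finDense : Dense Fin' := by
  intro g
  rw [mem_closure_iff_nhds]
  intro t ht
  rw [ind.nhds_eq_comap, nhds_pi, Filter.mem_comap] at ht
  obtain ⟨u, hu, h⟩ := ht
  obtain ⟨I, hI, v, hv, h'⟩ := Filter.mem_pi.1 hu
  obtain ⟨x, h1, h2⟩ := finAgree g hI.toFinset
  refine ⟨x, h (h' fun n hn => ?_), h1⟩
  show x n ∈ v n
  rw [h2 n (hI.mem_toFinset.2 hn)]
  exact mem_of_mem_nhds (hv n)

theorem cardCl {G : Type} [Group G] {s : Set G} (h : #s < 𝔠) : #(Subgroup.closure s) < 𝔠 := by
  have h1 : #(Subgroup.closure s) ≤ #(FreeGroup ↥(insert 1 s)) := by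
    have : Subgroup.closure s ≤ (FreeGroup.lift (Subtype.val : ↥(insert 1 s) → G)).range := by
      rw [FreeGroup.range_lift_eq_closure, Subtype.range_coe]
      exact Subgroup.closure_mono (subset_insert _ _)
    exact (mk_le_mk_of_subset this).trans mk_range_le
  refine h1.trans_lt ?_
  rw [mk_freeGroup]
  exact max_lt (mk_insert_le.trans_lt (add_lt_of_lt aleph0_le_continuum h
    (one_lt_aleph0.trans aleph0_lt_continuum))) aleph0_lt_continuum

/-- word maps with coefficients in `T` -/
def W (T : Set S) : Subgroup (S → S) := Subgroup.closure (insert id ((fun t _ => t) '' T))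

theorem W.cont {T : Set S} {φ : S → S} (h : φ ∈ W T) : Continuous φ := by
  induction h using Subgroup.closure_induction with
  | mem x hx =>
    rcases hx with rfl | ⟨t, -, rfl⟩
    exacts [continuous_id, continuous_const]
  | one => exact continuous_const
  | mul _ _ _ _ a b => exact a.mul b
  | inv _ _ a => exact a.inv

theorem W.ev {T : Subgroup S} {φ : S → S} (h : φ ∈ W T) {x : S} (hx : x ∈ T) : φ x ∈ T := by
  induction h using Subgroup.closure_induction with
  | mem y hy =>
    rcases hy with rfl | ⟨t, ht, rfl⟩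
    exacts [hx, ht]
  | one => exact T.one_mem
  | mul _ _ _ _ a b => exact T.mul_mem a b
  | inv _ _ a => exact T.inv_mem a

theorem W.ex {T : Set S} {k t : S} (h : t ∈ Subgroup.closure (insert k T)) :
    ∃ φ ∈ W T, φ k = t := by
  induction h using Subgroup.closure_induction with
  | mem y hy =>
    rcases hy with rfl | hy
    exacts [⟨id, Subgroup.subset_closure (Or.inl rfl), rfl⟩,
      ⟨fun _ => y, Subgroup.subset_closure (Or.inr ⟨y, hy, rfl⟩), rfl⟩]
  | one => exact ⟨1, Subgroup.one_mem _, rfl⟩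
  | mul _ _ _ _ a b =>
    obtain ⟨φ, a1, rfl⟩ := a
    obtain ⟨ψ, b1, rfl⟩ := b
    exact ⟨φ * ψ, Subgroup.mul_mem _ a1 b1, rfl⟩
  | inv _ _ a =>
    obtain ⟨φ, a1, rfl⟩ := a
    exact ⟨φ⁻¹, Subgroup.inv_mem _ a1, rfl⟩

/-- `k` adds no element of `T'` to a subgroup of `T'` containing the finitary permutations -/
def Gen (T' : Set S) (k : S) : Prop :=
  ∀ T : Subgroup S, (T : Set S) ⊆ T' → Fin' ⊆ T → ∀ t ∈ T',
    t ∈ Subgroup.closure (insert k (T : Set S)) → t ∈ T

theorem exGen (hc : CovEqC) {T' : Set S} (h : #T' < 𝔠) (s : S) :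
    ∃ g, Gen T' g ∧ Gen T' (g⁻¹ * s) := by
  let C : W T' × T' → Set S := fun p => {y | p.1.1 y = p.2.1}
  have cl : ∀ p, IsClosed (C p) := fun p => isClosed_eq (W.cont p.1.2) continuous_const
  have hW : #(W T' × T') < 𝔠 := by
    rw [mk_prod, lift_id, lift_id]
    refine mul_lt_of_lt aleph0_le_continuum (cardCl ?_) h
    exact mk_insert_le.trans_lt (add_lt_of_lt aleph0_le_continuum (mk_image_le.trans_lt h)
      (one_lt_aleph0.trans aleph0_lt_continuum))
  let e : S ≃ₜ S := (Homeomorph.inv S).trans (Homeomorph.mulRight s)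
  let N := {p | IsNowhereDense (C p)}
  have hN : #N < 𝔠 := (mk_set_le _).trans_lt hW
  obtain ⟨g, hg⟩ := (ne_univ_iff_exists_notMem _).1 (hc (C '' N ∪ (fun p => e ⁻¹' C p) '' N)
    ((mk_union_le _ _).trans_lt (add_lt_of_lt aleph0_le_continuum (mk_image_le.trans_lt hN)
      (mk_image_le.trans_lt hN))) (by
      rintro _ (⟨p, hp, rfl⟩ | ⟨p, hp, rfl⟩)
      · exact hp
      · have := ((cl p).isNowhereDense_iff).1 hp
        rw [((cl p).preimage e.continuous).isNowhereDense_iff, ← e.preimage_interior, this,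
          preimage_empty]))
  have key : ∀ k, (∀ p ∈ N, k ∉ C p) → Gen T' k := by
    intro k hk T h1 h2 t ht h3
    obtain ⟨φ, a1, a2⟩ := W.ex h3
    have a3 : φ ∈ W T' := Subgroup.closure_mono (insert_subset_insert (image_mono h1)) a1
    have : ¬ IsNowhereDense (C (⟨φ, a3⟩, ⟨t, ht⟩)) := fun c => hk _ c a2
    rw [(cl _).isNowhereDense_iff] at this
    obtain ⟨x, x1, x2⟩ := finDense.inter_open_nonempty _ isOpen_interior
      (nonempty_iff_ne_empty.2 this)
    have x3 : x ∈ C (⟨φ, a3⟩, ⟨t, ht⟩) := interior_subset x1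
    replace x3 : φ x = t := x3
    exact x3 ▸ W.ev a1 (h2 x2)
  exact ⟨g, key _ fun p hp c => hg ⟨_, Or.inl ⟨p, hp, rfl⟩, c⟩,
    key _ fun p hp c => hg ⟨_, Or.inr ⟨p, hp, rfl⟩, c⟩⟩

theorem exRec {ι α : Type} [LinearOrder ι] [WellFoundedLT ι] (P : ι → Set α → α → Prop)
    (Q : Set α → Prop) (hP : ∀ a E, Q E → ∃ x, P a E x) (hQ : ∀ (a : ι) (f : Iio a → α), Q (range f)) :
    ∃ f : ι → α, ∀ a, P a (f '' Iio a) (f a) := by
  choose F hF using hP
  let f : ι → α := WellFoundedLT.fix fun a r => F a _ (hQ a fun b => r b.1 b.2)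
  refine ⟨f, fun a => ?_⟩
  have : f a = F a _ (hQ a fun b => f b.1) := WellFoundedLT.fix_eq _ _
  rw [this, image_eq_range]
  exact hF _ _ _

theorem main (hc : CovEqC) : ∃ G H : Subgroup S, G ⊔ H = ⊤ ∧ ∀ U : Finset S,
    G ⊔ Subgroup.closure (U : Set S) ≠ ⊤ ∧ H ⊔ Subgroup.closure (U : Set S) ≠ ⊤ := by
  let ι := (𝔠 : Cardinal.{0}).ord.ToType
  have hS : #S = 𝔠 := by rw [mk_perm_eq_two_power]; simp
  obtain ⟨s⟩ : Nonempty (ι ≃ S) := Cardinal.eq.1 (by rw [hS]; exact mk_ord_toType _)
  have lt : ∀ a : ι, #(Iio a) < 𝔠 := fun a => mk_Iio_toType_ord_lt a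
  let R : ι → Set (S × S) → Subgroup S := fun a E =>
    Subgroup.closure (Fin' ∪ s '' Iic a ∪ (Prod.fst '' E ∪ Prod.snd '' E))
  have cR : ∀ a (E : Set (S × S)), #E < 𝔠 → #(R a E) < 𝔠 := fun a E hE => by
    have u : ∀ {A B : Set S}, #A < 𝔠 → #B < 𝔠 → #↥(A ∪ B) < 𝔠 := fun a b =>
      (mk_union_le _ _).trans_lt (add_lt_of_lt aleph0_le_continuum a b)
    refine cardCl (u (u (finCount.le_aleph0.trans_lt aleph0_lt_continuum)
      (mk_image_le.trans_lt ?_)) (u (mk_image_le.trans_lt hE) (mk_image_le.trans_lt hE)))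
    rw [← Iio_insert]
    exact mk_insert_le.trans_lt (add_lt_of_lt aleph0_le_continuum (lt a)
      (one_lt_aleph0.trans aleph0_lt_continuum))
  obtain ⟨f, hf⟩ := exRec (fun (a : ι) E (x : S × S) => x.2 ∉ R a E ∧
      Gen (Subgroup.closure (insert x.2 (R a E : Set S))) x.1 ∧
      Gen (Subgroup.closure (insert x.2 (R a E : Set S))) (x.1⁻¹ * s a)) (fun E => #E < 𝔠)
    (fun a E hE => by
      obtain ⟨t, ht⟩ : ∃ t, t ∉ R a E := by
        by_contra h
        push Not at h
        have := cR a E hE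
        rw [(Subgroup.eq_top_iff' _).2 h, mk_congr Subgroup.topEquiv.toEquiv, hS] at this
        exact lt_irrefl _ this
      obtain ⟨g, h⟩ := exGen hc (T' := Subgroup.closure (insert t (R a E : Set S)))
        (cardCl (mk_insert_le.trans_lt (add_lt_of_lt aleph0_le_continuum (cR a E hE)
          (one_lt_aleph0.trans aleph0_lt_continuum)))) (s a)
      exact ⟨(g, t), ht, h⟩)
    (fun a f => mk_range_le.trans_lt (lt a))
  let Q : ι → Subgroup S := fun a => R a (f '' Iio a)
  let T : ι → Subgroup S := fun a => Subgroup.closure (insert (f a).2 (Q a : Set S))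
  have QT : ∀ a, Q a ≤ T a := fun a x hx => Subgroup.subset_closure (Or.inr hx)
  have mono : ∀ a b, a ≤ b → Q a ≤ Q b := fun a b h => Subgroup.closure_mono
    (union_subset_union (union_subset_union_right _ (image_mono (Iic_subset_Iic.2 h)))
      (union_subset_union (image_mono (image_mono (Iio_subset_Iio h)))
        (image_mono (image_mono (Iio_subset_Iio h)))))
  have sQ : ∀ a b, a ≤ b → s a ∈ Q b := fun a b h =>
    Subgroup.subset_closure (Or.inl (Or.inr ⟨a, h, rfl⟩))
  have gQ : ∀ a b, a < b → (f a).1 ∈ Q b := fun a b h =>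
    Subgroup.subset_closure (Or.inr (Or.inl ⟨_, ⟨a, h, rfl⟩, rfl⟩))
  have tT : ∀ a b, a ≤ b → (f a).2 ∈ T b := fun a b h => by
    rcases h.eq_or_lt with rfl | h
    · exact Subgroup.subset_closure (Or.inl rfl)
    · exact QT b (Subgroup.subset_closure (Or.inr (Or.inr ⟨_, ⟨a, h, rfl⟩, rfl⟩)))
  have key : ∀ k : ι → S, (∀ a, Gen (T a) (k a)) → (∀ a b, a < b → k a ∈ Q b) → ∀ U : Finset S,
      Subgroup.closure (range k) ⊔ Subgroup.closure (U : Set S) ≠ ⊤ := by
    intro k h1 h2 U hU
    haveI : Nonempty ι := ⟨s.symm 1⟩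
    obtain ⟨a, ha⟩ := (U.image s.symm).bddAbove
    have fin : ∀ F : Finset ι, (f a).2 ∉ Q a ⊔ Subgroup.closure (k '' F) := by
      intro F
      induction F using Finset.induction_on_max with
      | empty => simpa using (hf a).1
      | insert b F hb ih =>
        intro c
        by_cases ab : b < a
        · refine (hf a).1 ((sup_le le_rfl ((Subgroup.closure_le _).2 ?_) : _ ≤ Q a) c)
          rintro _ ⟨x, hx, rfl⟩
          rcases Finset.mem_insert.1 hx with rfl | hx
          exacts [h2 _ _ ab, h2 _ _ ((hb x hx).trans ab)]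
        · refine ih (h1 b _ (fun x hx => QT b ((sup_le (mono _ _ (not_lt.1 ab))
            ((Subgroup.closure_le _).2 ?_) : _ ≤ Q b) hx)) (fun x hx => Subgroup.mem_sup_left
            (Subgroup.subset_closure (Or.inl (Or.inl hx)))) _ (tT _ _ (not_lt.1 ab)) ?_)
          · rintro _ ⟨x, hx, rfl⟩
            exact h2 _ _ (hb x hx)
          · refine (sup_le (fun x hx => Subgroup.subset_closure (Or.inr (Subgroup.mem_sup_left hx)))
              ((Subgroup.closure_le _).2 ?_) : _ ≤ Subgroup.closure _) c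
            rintro _ ⟨x, hx, rfl⟩
            rcases Finset.mem_insert.1 hx with rfl | hx
            · exact Subgroup.subset_closure (Or.inl rfl)
            · exact Subgroup.subset_closure (Or.inr (Subgroup.mem_sup_right
                (Subgroup.subset_closure ⟨x, hx, rfl⟩)))
    have all : ∀ x ∈ Subgroup.closure (range k ∪ U), ∃ F : Finset ι,
        x ∈ Q a ⊔ Subgroup.closure (k '' F) := by
      intro x hx
      induction hx using Subgroup.closure_induction with
      | mem y hy =>
        rcases hy with ⟨b, rfl⟩ | hy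
        · exact ⟨{b}, Subgroup.mem_sup_right (Subgroup.subset_closure ⟨b, by simp, rfl⟩)⟩
        · refine ⟨∅, Subgroup.mem_sup_left ?_⟩
          rw [← s.apply_symm_apply y]
          exact sQ _ _ (ha (by simpa using hy))
      | one => exact ⟨∅, Subgroup.one_mem _⟩
      | mul _ _ _ _ u v =>
        obtain ⟨F, u⟩ := u
        obtain ⟨F', v⟩ := v
        exact ⟨F ∪ F', Subgroup.mul_mem _
          (sup_le_sup_left (Subgroup.closure_mono (image_mono (by simp))) _ u)
          (sup_le_sup_left (Subgroup.closure_mono (image_mono (by simp))) _ v)⟩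
      | inv _ _ u => exact u.imp fun F h => Subgroup.inv_mem _ h
    obtain ⟨F, hF⟩ := all (f a).2 (by rw [Subgroup.closure_union, hU]; trivial)
    exact fin F hF
  refine ⟨Subgroup.closure (range fun a => (f a).1),
    Subgroup.closure (range fun a => (f a).1⁻¹ * s a), (Subgroup.eq_top_iff' _).2 fun x => ?_,
    fun U => ⟨key _ (fun a => (hf a).2.1) gQ U, key _ (fun a => (hf a).2.2) (fun a b h =>
      Subgroup.mul_mem _ (Subgroup.inv_mem _ (gQ a b h)) (sQ a b h.le)) U⟩⟩
  obtain ⟨a, rfl⟩ := s.surjective x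
  have : s a = (f a).1 * ((f a).1⁻¹ * s a) := by simp
  rw [this]
  exact Subgroup.mul_mem_sup (Subgroup.subset_closure ⟨a, rfl⟩) (Subgroup.subset_closure ⟨a, rfl⟩)

end Pool.Agent.H.MP_864522_al
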