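import Mathlib

set_option autoImplicit false

namespace Pool.Agent.H.MP_864522_al

open Cardinal

/-- the topology of pointwise convergence on `Sym(ℕ)` -/
instance permTop : TopologicalSpace (Equiv.Perm ℕ) :=
  TopologicalSpace.induced (fun g => (g : ℕ → ℕ)) inferInstance

/-- `cov(ℳ) = 𝔠`, for the Polish space `Sym(ℕ)`: fewer than `𝔠` nowhere dense sets never cover -/
def CovEqC : Prop :=
  ∀ 𝒟 : Set (Set (Equiv.Perm ℕ)), #𝒟 < 𝔠 → (∀ D ∈ 𝒟, IsNowhereDense D) → ⋃₀ 𝒟 ≠ Set.univ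

end Pool.Agent.H.MP_864522_al
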